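import Pool.Agent.H91.RF.TargetsK

/-!
# MP_609556_an, part K: distance function in boxes (GEOB), from points to boxes (UPB),
sequences (SEQ)
-/

set_option autoImplicit false

open MeasureTheory Set Filter Topology Metric
open Pool.Agent.H91.RD Pool.Agent.H91.RF

namespace Pool.Agent.H47.RF

/-- `NDir` is monotone in the angle. -/
lemma NDir.mono {N : ℕ} {U : Set (E N)} {η η' : ℝ} {x e : E N} (h : NDir U η x e) (hη : η ≤ η') :
    NDir U η' x e := by
  obtain ⟨h1, ξ, e0, h2, h3⟩ := h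
  exact ⟨h1, ξ, e0, h2, h3.trans hη⟩

theorem GEOB : T_GEOB := by
  intro N U b B hC hne hb hbB
  refine ⟨max 1 (1 / (2 * b)), le_max_left _ _, min b 1, lt_min hb one_pos, ?_⟩
  intro ρ hρ hρ0 ε hε
  have hρb : ρ ≤ b := hρ0.trans (min_le_left _ _)
  have hρ1 : ρ ≤ 1 := hρ0.trans (min_le_right _ _)
  have hB : 0 < B := hb.trans hbB
  set e4 : ℝ := ε / (2 * (2 * B + 6)) with he4
  have he4pos : 0 < e4 := by positivity
  have he4eq : e4 * (2 * B + 6) = ε / 2 := by
    rw [he4]; field_simp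
  obtain ⟨R, hR, hcone⟩ := hC e4 he4pos
  refine ⟨ε / 2, by positivity, max 1 (R / b), lt_of_lt_of_le one_pos (le_max_left _ _), ?_⟩
  intro t ht x0 e hND hd1 hd2 y hy
  have ht1 : 1 ≤ t := (le_max_left _ _).trans ht
  have ht0 : 0 < t := by linarith
  have htR : R ≤ b * t := by
    have h1 : R / b ≤ t := (le_max_right _ _).trans ht
    rw [div_le_iff₀ hb] at h1
    linarith
  obtain ⟨he, ξ, e0, hD, hee⟩ := hND
  set d0 : ℝ := infDist x0 U with hd0
  have hd0pos : 0 < d0 := hD.pos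
  have hRd : R ≤ d0 := htR.trans hd1
  have hnorm : ‖x0 - ξ‖ = d0 := by rw [← dist_eq_norm]; exact hD.near
  have hDeq : x0 - ξ = d0 • e0 := hD.eq
  have hr : ‖y - x0‖ ≤ ρ * t := by rw [← dist_eq_norm]; exact hy
  have hρt : ρ * t ≤ t := mul_le_of_le_one_left ht0.le hρ1
  -- change of direction
  have hdir : |inner ℝ (y - x0) e0 - inner ℝ (y - x0) e| ≤ ε / 2 * t := by
    rw [← inner_sub_right]
    calc |inner ℝ (y - x0) (e0 - e)| ≤ ‖y - x0‖ * ‖e0 - e‖ := abs_real_inner_le_norm _ _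
      _ ≤ t * (ε / 2) := by
          refine mul_le_mul (hr.trans hρt) ?_ (norm_nonneg _) ht0.le
          rw [norm_sub_rev]; exact hee
      _ = ε / 2 * t := by ring
  obtain ⟨hdl, hdu⟩ := abs_le.1 hdir
  have hse : |inner ℝ (y - x0) e| ≤ ‖y - x0‖ := by
    have := abs_real_inner_le_norm (y - x0) e
    rwa [he, mul_one] at this
  constructor
  · refine (le_infDist hne).2 fun y' hy' => ?_
    have h1 := hcone x0 hRd ξ hD.mem hD.near y' hy'
    rw [hnorm, hDeq, real_inner_smul_left] at h1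
    have h2 : inner ℝ e0 (y' - ξ) ≤ e4 * ‖y' - ξ‖ := by
      have : d0 * inner ℝ e0 (y' - ξ) ≤ d0 * (e4 * ‖y' - ξ‖) := by
        calc d0 * inner ℝ e0 (y' - ξ) ≤ e4 * d0 * ‖y' - ξ‖ := h1
          _ = d0 * (e4 * ‖y' - ξ‖) := by ring
      exact le_of_mul_le_mul_left this hd0pos
    rw [dist_eq_norm]
    rcases le_or_gt ‖y - y'‖ ((B + 2) * t) with hc | hc
    · have h3 : ‖y' - ξ‖ ≤ (2 * B + 6) * t := by
        have : y' - ξ = -(y - y') + (y - x0) + (x0 - ξ) := by abel
        rw [this]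
        have h4 : ‖-(y - y') + (y - x0) + (x0 - ξ)‖ ≤ ‖-(y - y')‖ + ‖y - x0‖ + ‖x0 - ξ‖ :=
          norm_add₃_le
        rw [norm_neg, hnorm] at h4
        have h4' : (2 * B + 6) * t = (B + 2) * t + t + B * t + 3 * t := by ring
        linarith
      have h5 : inner ℝ e0 (y' - ξ) ≤ ε / 2 * t := by
        have : e4 * ‖y' - ξ‖ ≤ e4 * ((2 * B + 6) * t) := mul_le_mul_of_nonneg_left h3 he4pos.le
        have h6 : e4 * ((2 * B + 6) * t) = ε / 2 * t := by rw [← mul_assoc, he4eq]
        linarith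
      have h7 : inner ℝ (y - y') e0 = inner ℝ (y - x0) e0 + d0 - inner ℝ e0 (y' - ξ) := by
        have h8 : y - y' = (y - x0) + (x0 - ξ) - (y' - ξ) := by abel
        rw [h8, inner_sub_left, inner_add_left, hDeq, real_inner_smul_left,
          real_inner_self_eq_norm_sq, hD.unit, real_inner_comm e0 (y' - ξ)]
        ring
      have h9 : inner ℝ (y - y') e0 ≤ ‖y - y'‖ := by
        have := real_inner_le_norm (y - y') e0
        rwa [hD.unit, mul_one] at this
      linarith
    · have h3 : inner ℝ (y - x0) e ≤ t := (le_abs_self _).trans (hse.trans (hr.trans hρt))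
      have h4 : 0 < ε * t := mul_pos hε ht0
      have h5 : (B + 2) * t = B * t + 2 * t := by ring
      linarith
  · have h1 : infDist y U ≤ ‖y - ξ‖ := by
      rw [← infDist_closure, ← dist_eq_norm]
      exact infDist_le_dist_of_mem hD.mem
    set s : ℝ := inner ℝ (y - x0) e0 with hs
    set r : ℝ := ‖y - x0‖ with hrdef
    have hr0 : 0 ≤ r := norm_nonneg _
    have hrd : r ≤ d0 := by
      have : ρ * t ≤ b * t := mul_le_mul_of_nonneg_right hρb ht0.le
      linarith
    have hsr : -r ≤ s := by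
      have := abs_real_inner_le_norm (y - x0) e0
      rw [hD.unit, mul_one] at this
      exact (abs_le.1 this).1
    have h2 : ‖y - ξ‖ ^ 2 = d0 ^ 2 + 2 * d0 * s + r ^ 2 := by
      have h3 : y - ξ = (y - x0) + d0 • e0 := by rw [← hDeq]; abel
      rw [h3, norm_add_sq_real, inner_smul_right, norm_smul, hD.unit, Real.norm_eq_abs,
        abs_of_pos hd0pos]
      ring
    have h3 : ‖y - ξ‖ ≤ d0 + s + r ^ 2 / (2 * d0) := by
      have h4 : 0 ≤ r ^ 2 / (2 * d0) := by positivity
      refine abs_le_of_sq_le_sq' ?_ (by linarith) |>.2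
      rw [h2]
      have h5 : (d0 + s + r ^ 2 / (2 * d0)) ^ 2 - (d0 ^ 2 + 2 * d0 * s + r ^ 2) =
          (s + r ^ 2 / (2 * d0)) ^ 2 := by
        field_simp
        ring
      have h6 := sq_nonneg (s + r ^ 2 / (2 * d0))
      linarith
    have h4 : r ^ 2 / (2 * d0) ≤ max 1 (1 / (2 * b)) * ρ ^ 2 * t := by
      have h5 : r ^ 2 / (2 * d0) ≤ (ρ * t) ^ 2 / (2 * (b * t)) := by
        apply div_le_div₀ (by positivity) (by gcongr) (by positivity) (by linarith)
      have h6 : (ρ * t) ^ 2 / (2 * (b * t)) = 1 / (2 * b) * ρ ^ 2 * t := by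
        field_simp
      rw [h6] at h5
      refine h5.trans ?_
      have h7 : 1 / (2 * b) ≤ max 1 (1 / (2 * b)) := le_max_right _ _
      gcongr
    have h5 : 0 < ε * t := mul_pos hε ht0
    have h6 : (max 1 (1 / (2 * b)) * ρ ^ 2 + ε) * t =
        max 1 (1 / (2 * b)) * ρ ^ 2 * t + ε * t := by ring
    rw [h6]
    linarith

end Pool.Agent.H47.RF
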