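import Pool.Agent.H91.RF.TargetsK

/-!
# MP_609556_an, part K: from points to boxes (UPB), sequences (SEQ)
-/

set_option autoImplicit false

open MeasureTheory Set Filter Topology Metric
open Pool.Agent.H91.RD Pool.Agent.H91.RF

namespace Pool.Agent.H47.RF

/-- `NDir` is monotone in the angle. -/
lemma NDir.mono {N : ℕ} {U : Set (E N)} {η η' : ℝ} {x e : E N} (h : NDir U η x e) (hη : η ≤ η') :
    NDir U η' x e := by
  obtain ⟨h1, ξ, e0, h2, h3⟩ := h
  exact ⟨h1, ξ, e0, h2, h3.trans hη⟩

lemma infDist_sub {N : ℕ} (U : Set (E N)) (x y : E N) :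
    |infDist y U - infDist x U| ≤ dist y x := by
  rw [abs_le]
  constructor
  · have := infDist_le_infDist_add_dist (s := U) (x := x) (y := y)
    rw [dist_comm] at this
    linarith
  · have := infDist_le_infDist_add_dist (s := U) (x := y) (y := x)
    linarith

theorem UPB (h1 : T_GEOK) : T_UPB := by
  intro N U cc Q hC hne hcc hQ ε hε
  obtain ⟨η, hη, T1, hT1, hQ'⟩ := hQ ε hε
  obtain ⟨ρ1, hρ1, T2, hT2, hG⟩ := h1 N U (cc / 2) hC hne (by positivity) η hη
  set ρ : ℝ := min (min ρ1 (1 / 2)) (min (cc / 2) (η / (2 * (3 + cc)))) with hρdef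
  have hρpos : 0 < ρ := by
    refine lt_min (lt_min hρ1 (by norm_num)) (lt_min (by positivity) (by positivity))
  have hρa : ρ ≤ ρ1 := (min_le_left _ _).trans (min_le_left _ _)
  have hρb : ρ ≤ 1 / 2 := (min_le_left _ _).trans (min_le_right _ _)
  have hρc : ρ ≤ cc / 2 := (min_le_right _ _).trans (min_le_left _ _)
  have hρd : (3 + cc) * ρ ≤ η / 2 := by
    have h : ρ ≤ η / (2 * (3 + cc)) := (min_le_right _ _).trans (min_le_right _ _)
    rw [le_div_iff₀ (by positivity)] at h
    linarith
  refine ⟨ρ, hρpos, max (2 * T1) T2, lt_of_lt_of_le hT2 (le_max_right _ _), ?_⟩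
  intro t ht x0 e hND hd s hs y hy
  have ht1 : 2 * T1 ≤ t := (le_max_left _ _).trans ht
  have ht2 : T2 ≤ t := (le_max_right _ _).trans ht
  have ht0 : 0 < t := by linarith
  obtain ⟨hd1, hd2⟩ := abs_le.1 hd
  have e1 : ρ * t ≤ cc / 2 * t := mul_le_mul_of_nonneg_right hρc ht0.le
  have e2 : ρ * t ≤ ρ1 * t := mul_le_mul_of_nonneg_right hρa ht0.le
  have e3 : ρ * t ≤ 1 / 2 * t := mul_le_mul_of_nonneg_right hρb ht0.le
  have e4 : (3 + cc) * ρ * t ≤ η / 2 * t := mul_le_mul_of_nonneg_right hρd ht0.le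
  have hN : NDir U η y e := hG t ht2 x0 e (NDir.mono hND hρa) (by linarith) y (hy.trans e2)
  obtain ⟨hs1, hs2⟩ := hs
  have hs3 : t - ρ * t ≤ s := by linarith
  have hs4 : T1 ≤ s := by linarith
  refine hQ' s hs4 y e hN ?_
  have h3 := (infDist_sub U x0 y).trans hy
  have h4 : |cc * t - cc * s| ≤ cc * (ρ * t) := by
    rw [← mul_sub, abs_mul, abs_of_pos hcc]
    refine mul_le_mul_of_nonneg_left ?_ hcc.le
    rw [abs_of_nonneg (by linarith)]
    linarith
  have h5 : infDist y U - cc * s =
      (infDist y U - infDist x0 U) + (infDist x0 U - cc * t) + (cc * t - cc * s) := by ring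
  have h6 : |infDist y U - cc * s| ≤ ρ * t + ρ * t + cc * (ρ * t) := by
    rw [h5]
    exact (abs_add_three _ _ _).trans (add_le_add (add_le_add h3 hd) h4)
  have h7 : η * (1 / 2 * t) ≤ η * s := mul_le_mul_of_nonneg_left (by linarith) hη.le
  have h8 : (3 + cc) * ρ * t = ρ * t + ρ * t + ρ * t + cc * (ρ * t) := by ring
  have h9 : 0 < ρ * t := mul_pos hρpos ht0
  linarith

theorem SEQ (h1 : T_GEOK) : T_SEQ := by
  intro N U cc hC hne hcc
  constructor
  · intro tn xn e hseq sn yn C hsy
    obtain ⟨htn, hev⟩ := hseq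
    have hC0 : 0 ≤ C := (abs_nonneg _).trans (hsy 0).1
    refine ⟨?_, ?_⟩
    · refine tendsto_atTop_mono (fun n => ?_) (tendsto_atTop_add_const_right atTop (-C) htn)
      have := (abs_le.1 (hsy n).1).1
      linarith
    · intro η hη
      obtain ⟨ρ, hρ, T, hT, hG⟩ := h1 N U (cc / 2) hC hne (by positivity) η hη
      set ρ' : ℝ := min ρ (min (cc / 2) (η / 4)) with hρ'
      have hρ'pos : 0 < ρ' := lt_min hρ (lt_min (by positivity) (by positivity))
      have hρa : ρ' ≤ ρ := min_le_left _ _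
      have hρb : ρ' ≤ cc / 2 := (min_le_right _ _).trans (min_le_left _ _)
      have hρc : ρ' ≤ η / 4 := (min_le_right _ _).trans (min_le_right _ _)
      filter_upwards [hev ρ' hρ'pos, htn.eventually_ge_atTop T,
        htn.eventually_ge_atTop (C / ρ), htn.eventually_ge_atTop (2 * C),
        htn.eventually_ge_atTop ((C + cc * C) / (η / 4)), htn.eventually_gt_atTop 0]
        with n hn hnT hnC hn2 hn4 hn0
      obtain ⟨hN, hd⟩ := hn
      obtain ⟨hd1, hd2⟩ := abs_le.1 hd
      have e1 : ρ' * tn n ≤ cc / 2 * tn n := mul_le_mul_of_nonneg_right hρb hn0.le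
      have e2 : ρ' * tn n ≤ η / 4 * tn n := mul_le_mul_of_nonneg_right hρc hn0.le
      have e3 : C ≤ ρ * tn n := by
        rw [div_le_iff₀ hρ] at hnC
        linarith
      have e4 : C + cc * C ≤ η / 4 * tn n := by
        rw [div_le_iff₀ (by positivity)] at hn4
        linarith
      have hdist : dist (xn n + yn n) (xn n) ≤ C := by
        rw [dist_eq_norm, add_sub_cancel_left]
        exact (hsy n).2
      refine ⟨hG (tn n) hnT (xn n) e (NDir.mono hN hρa) (by linarith) _ (hdist.trans e3), ?_⟩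
      have h3 := (infDist_sub U (xn n) (xn n + yn n)).trans hdist
      have h4 : |cc * tn n - cc * (tn n + sn n)| ≤ cc * C := by
        rw [← mul_sub, abs_mul, abs_of_pos hcc]
        refine mul_le_mul_of_nonneg_left ?_ hcc.le
        rw [sub_add_cancel_left, abs_neg]
        exact (hsy n).1
      have h5 : infDist (xn n + yn n) U - cc * (tn n + sn n) =
          (infDist (xn n + yn n) U - infDist (xn n) U) + (infDist (xn n) U - cc * tn n) +
          (cc * tn n - cc * (tn n + sn n)) := by ring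
      have h6 : |infDist (xn n + yn n) U - cc * (tn n + sn n)| ≤ C + ρ' * tn n + cc * C := by
        rw [h5]
        exact (abs_add_three _ _ _).trans (add_le_add (add_le_add h3 hd) h4)
      have h7 : η * (1 / 2 * tn n) ≤ η * (tn n + sn n) := by
        refine mul_le_mul_of_nonneg_left ?_ hη.le
        have := (abs_le.1 (hsy n).1).1
        linarith
      linarith
  · intro tn xn en hn htn hND hh
    have hcomp : IsCompact (sphere (0 : E N) 1 ×ˢ closedBall (0 : E N) 1) :=
      (isCompact_sphere _ _).prod (isCompact_closedBall _ _)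
    have hmem : ∀ n, (en n, hn n) ∈ sphere (0 : E N) 1 ×ˢ closedBall (0 : E N) 1 := by
      intro n
      refine ⟨?_, ?_⟩
      · rw [mem_sphere_zero_iff_norm]; exact (hND n).1.1
      · rw [mem_closedBall_zero_iff]; exact hh n
    obtain ⟨⟨e, h⟩, heh, σ, hσ, hlim⟩ := hcomp.tendsto_subseq hmem
    have he1 : ‖e‖ = 1 := by rw [← mem_sphere_zero_iff_norm]; exact heh.1
    have hl1 : Tendsto (en ∘ σ) atTop (𝓝 e) := by
      have := (continuous_fst.tendsto (e, h)).comp hlim
      exact this
    have hl2 : Tendsto (hn ∘ σ) atTop (𝓝 h) := by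
      have := (continuous_snd.tendsto (e, h)).comp hlim
      exact this
    refine ⟨σ, e, h, hσ, he1, hl1, hl2, htn.comp hσ.tendsto_atTop, ?_⟩
    intro η hη
    have h0 : Tendsto (fun n : ℕ => 1 / ((n : ℝ) + 1)) atTop (𝓝 0) :=
      tendsto_one_div_add_atTop_nhds_zero_nat
    have h0' := (h0.comp hσ.tendsto_atTop).eventually_lt_const (half_pos hη)
    have h1' : ∀ᶠ n in atTop, ‖en (σ n) - e‖ < η / 2 := by
      have := (tendsto_iff_norm_sub_tendsto_zero.1 hl1).eventually_lt_const (half_pos hη)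
      exact this
    filter_upwards [h0', h1', (htn.comp hσ.tendsto_atTop).eventually_ge_atTop 0]
      with n hn1 hn2 hn3
    obtain ⟨⟨hu, ξ, e0, hD, hee⟩, hd⟩ := hND (σ n)
    simp only [Function.comp_apply] at hn1 hn3 ⊢
    refine ⟨⟨he1, ξ, e0, hD, ?_⟩, ?_⟩
    · have h4 : e - e0 = -(en (σ n) - e) + (en (σ n) - e0) := by abel
      rw [h4]
      refine (norm_add_le _ _).trans ?_
      rw [norm_neg]
      linarith
    · refine hd.trans (mul_le_mul_of_nonneg_right ?_ hn3)
      linarith

end Pool.Agent.H47.RF
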